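import Pool.Agent.Lib_helper15.RB.KU
import Pool.Agent.Lib_helper29.RBP.Main
import Pool.Agent.Lib_helper49.RT.NW
import Pool.Agent.Lib_helper17.CRF.N_PC5

/-!
# Rubin's conjecture for large `S`
-/

set_option autoImplicit false
set_option linter.unusedSectionVars false

namespace Pool.Agent.RB

open NumberField IsDedekindDomain

section

variable {F H : Type} [Field F] [NumberField F] [Field H] [NumberField H] [Algebra F H]
  [IsGalois F H] {G : Type} [CommGroup G] [Fintype G]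

/-- a `q`-subgroup of an abelian group lies in every subgroup of index prime to `q` -/
theorem le_of_index {q : ℕ} (hq : q.Prime) {D M : Subgroup G} (hD : IsPGroup q D)
    (hM : ¬ q ∣ M.index) : D ≤ M := by
  intro g hg
  obtain ⟨k, hk⟩ := hD ⟨g, hg⟩
  have h1 : g ^ q ^ k = 1 := congrArg Subtype.val hk
  have h2 : (QuotientGroup.mk' M g) ^ q ^ k = 1 := by
    rw [← map_pow, h1, map_one]
  have h3 : orderOf (QuotientGroup.mk' M g) ∣ q ^ k := orderOf_dvd_of_pow_eq_one h2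
  have h4 : orderOf (QuotientGroup.mk' M g) ∣ M.index := by
    rw [Subgroup.index_eq_card]
    exact orderOf_dvd_natCard _
  have h5 : Nat.Coprime (q ^ k) M.index := Nat.Coprime.pow_left k ((Nat.Prime.coprime_iff_not_dvd hq).2 hM)
  have h6 : orderOf (QuotientGroup.mk' M g) = 1 := Nat.eq_one_of_dvd_coprimes h5 h3 h4
  have h7 := orderOf_eq_one_iff.1 h6
  exact (QuotientGroup.eq_one_iff g).1 h7

/-- `1` is admissible if `S` is large at all primes dividing `#G` -/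
theorem one_adm (ι : G ≃* (H ≃ₐ[F] H)) (S T : Finset (HeightOneSpectrum (𝓞 F))) {r : ℕ}
    (w : Fin r → RSK.Pl H) (fr : HeightOneSpectrum (𝓞 F) → G) (hD : RSK.Data ι S T r w fr)
    (hS : ∀ p : ℕ, p.Prime → p ∣ Nat.card G → CR.mQ p G <
      Nat.card {P : RSK.PS S // CR.dgF ι P.pl ≠ ⊥ ∧ IsPGroup p (CR.dgF ι P.pl)}) :
    (1 : MonoidAlgebra ℤ G) ∈ CR.admE ι S w := by
  classical
  intro q hq
  refine ⟨0, 0, 1, ?_, ?_, 1, ?_, ?_⟩
  · by_cases hqG : q ∣ Nat.card G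
    · refine Or.inr (Or.inr (Or.inl ?_))
      obtain ⟨hr, -, -⟩ := CR.data_pl_pr hD
      have hS1 := hS q hq hqG
      have hr' : Nat.card {P : RSK.PS S // CR.dgF ι P.pl = ⊥} = r := hr
      rw [Nat.card_eq_fintype_card, Fintype.card_subtype] at hr' hS1
      have hdis : Disjoint (Finset.univ.filter fun P : RSK.PS S => CR.dgF ι P.pl = ⊥)
          (Finset.univ.filter fun P : RSK.PS S =>
            CR.dgF ι P.pl ≠ ⊥ ∧ IsPGroup q (CR.dgF ι P.pl)) := by
        rw [Finset.disjoint_left]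
        intro P h1 h2
        exact (Finset.mem_filter.1 h2).2.1 (Finset.mem_filter.1 h1).2
      have hun := Finset.card_union_of_disjoint hdis
      refine ⟨?_, fun M hM _ hM2 => ?_⟩
      · have h1 := Finset.card_le_univ ((Finset.univ.filter fun P : RSK.PS S => CR.dgF ι P.pl = ⊥) ∪
          (Finset.univ.filter fun P : RSK.PS S =>
            CR.dgF ι P.pl ≠ ⊥ ∧ IsPGroup q (CR.dgF ι P.pl)))
        have h2 : Fintype.card (RSK.PS S) = Fintype.card (InfinitePlace F) + S.card := by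
          rw [Fintype.card_sum, Fintype.card_coe]
        omega
      · have h1 : (Finset.univ.filter fun P : RSK.PS S => CR.dgF ι P.pl = ⊥) ∪
            (Finset.univ.filter fun P : RSK.PS S =>
              CR.dgF ι P.pl ≠ ⊥ ∧ IsPGroup q (CR.dgF ι P.pl)) ⊆
            Finset.univ.filter fun P : RSK.PS S => CR.dgF ι P.pl ≤ M := by
          intro P hP
          rw [Finset.mem_filter]
          refine ⟨Finset.mem_univ _, ?_⟩
          rcases Finset.mem_union.1 hP with h | h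
          · rw [(Finset.mem_filter.1 h).2]
            exact bot_le
          · exact le_of_index hq (Finset.mem_filter.1 h).2.2 hM2
        have h2 := Finset.card_le_card h1
        rw [Nat.card_eq_fintype_card, Fintype.card_subtype]
        omega
    · left
      rw [zero_add, pow_one]
      exact hqG
  · intro h
    exact hq.one_lt.ne' (Nat.dvd_one.1 h)
  · rw [pow_zero, Ideal.one_eq_top]
    trivial
  · rw [Nat.cast_one, pow_zero, one_mul]

/-- There are places outside a given finite set with Frobenius automorphism `g`. -/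
theorem exists_pl (ι : G ≃* (H ≃ₐ[F] H)) (g : G) (B : Finset (HeightOneSpectrum (𝓞 F))) :
    ∃ v : HeightOneSpectrum (𝓞 F), v ∉ B ∧ CR.dgF ι (Sum.inr v) = Subgroup.zpowers g := by
  classical
  obtain ⟨B', hB'⟩ := RS2.la_ram F H
  obtain ⟨Q, hQ, h⟩ := RT.nv_frob (ι g).toRingEquiv
  -- a large prime in `Q`
  have hinf : ∃ q : ℕ, q.Prime ∧ q ∈ Q ∧ ∑ v ∈ B ∪ B', RSK.nv v < q := by
    by_contra hcon
    push Not at hcon
    apply hQ
    refine summable_of_hasFiniteSupport ?_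
    refine Set.Finite.subset (Set.Finite.preimage (f := fun p : Nat.Primes => (p : ℕ))
      (Function.Injective.injOn Nat.Primes.coe_nat_injective)
      (Set.finite_le_nat (∑ v ∈ B ∪ B', RSK.nv v))) ?_
    intro p hp
    have hpQ : (p : ℕ) ∈ Q := by
      by_contra hh
      exact hp (Set.indicator_of_notMem hh _)
    exact hcon p p.2 hpQ
  obtain ⟨q, hq, hqQ, hqB⟩ := hinf
  obtain ⟨W, hqW, hW⟩ := h q hqQ hq
  have hqv : (q : 𝓞 F) ∈ (W.under (𝓞 F)).asIdeal := by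
    show algebraMap (𝓞 F) (𝓞 H) (q : 𝓞 F) ∈ W.asIdeal
    rw [map_natCast]
    exact hqW
  have hnv : RSK.nv (W.under (𝓞 F)) = q := RSK.cb_card _ hq hqv (fun f => by
    show algebraMap (𝓞 F) (𝓞 H) (f ^ q - f) ∈ W.asIdeal
    have h1 := hW (algebraMap (𝓞 F) (𝓞 H) f) (algebraMap (𝓞 F) (𝓞 H) f) (by
      show algebraMap F H (f : F) = ι g (algebraMap F H (f : F))
      rw [AlgEquiv.commutes])
    rw [map_sub, map_pow]
    have h2 := W.asIdeal.neg_mem h1
    rwa [neg_sub] at h2)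
  have hvB : W.under (𝓞 F) ∉ B ∪ B' := by
    intro hX
    have h3 : RSK.nv (W.under (𝓞 F)) ≤ ∑ v ∈ B ∪ B', RSK.nv v :=
      Finset.single_le_sum (f := fun v => RSK.nv v) (fun _ _ => Nat.zero_le _) hX
    omega
  rw [Finset.mem_union, not_or] at hvB
  refine ⟨W.under (𝓞 F), hvB.1, ?_⟩
  have h1 : RS2.FrAt W (ι g) := fun x => by
    rw [hnv]
    exact hW x _ rfl
  ext γ
  have h2 : (Sum.inr (W.under (𝓞 F)) : RSK.Pl F) = RSK.dn F (Sum.inr W : RSK.Pl H) := rfl
  rw [h2, CR.dgF_eq]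
  have h3 := RS2.frAt_gen (hB' W hvB.2) h1 (ι γ)
  constructor
  · intro h
    have h4 := h3.1 (Sum.inr.inj h)
    obtain ⟨n, hn⟩ := Subgroup.mem_zpowers_iff.1 h4
    rw [← map_zpow] at hn
    exact Subgroup.mem_zpowers_iff.2 ⟨n, ι.injective hn⟩
  · intro h
    obtain ⟨n, rfl⟩ := Subgroup.mem_zpowers_iff.1 h
    have h4 := h3.2 (Subgroup.mem_zpowers_iff.2 ⟨n, (map_zpow ι g n).symm⟩)
    show Sum.inr _ = Sum.inr W
    rw [h4]

/-- many places with decomposition group of order `p` -/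
theorem exists_pls (ι : G ≃* (H ≃ₐ[F] H)) {p : ℕ} (hp : p.Prime) (hpG : p ∣ Nat.card G) (n : ℕ) :
    ∃ B : Finset (HeightOneSpectrum (𝓞 F)), n < B.card ∧
      ∀ v ∈ B, CR.dgF ι (Sum.inr v) ≠ ⊥ ∧ IsPGroup p (CR.dgF ι (Sum.inr v)) := by
  classical
  have hpf : Fact p.Prime := ⟨hp⟩
  obtain ⟨g, hg⟩ := exists_prime_orderOf_dvd_card' p hpG
  have key : ∀ n : ℕ, ∃ B : Finset (HeightOneSpectrum (𝓞 F)), B.card = n ∧
      ∀ v ∈ B, CR.dgF ι (Sum.inr v) = Subgroup.zpowers g := by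
    intro n
    induction n with
    | zero => exact ⟨∅, rfl, fun v hv => absurd hv (Finset.notMem_empty v)⟩
    | succ n ih =>
      obtain ⟨B, h1, h2⟩ := ih
      obtain ⟨v, h3, h4⟩ := exists_pl ι g B
      refine ⟨Finset.cons v B h3, by rw [Finset.card_cons, h1], fun v' hv' => ?_⟩
      rcases Finset.mem_cons.1 hv' with rfl | h
      · exact h4
      · exact h2 v' h
  obtain ⟨B, h1, h2⟩ := key (n + 1)
  refine ⟨B, by omega, fun v hv => ?_⟩
  rw [h2 v hv]
  have hc : Nat.card (Subgroup.zpowers g) = p := by rw [Nat.card_zpowers, hg]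
  constructor
  · intro h
    rw [h, Subgroup.card_bot] at hc
    exact hp.one_lt.ne hc
  · exact IsPGroup.of_card (n := 1) (by rw [hc, pow_one])

/-- the places in `S` -/
theorem card_pl (ι : G ≃* (H ≃ₐ[F] H)) (S : Finset (RSK.Pl F))
    (harch : ∀ v : InfinitePlace F, Sum.inl v ∈ S) (p : ℕ) :
    Nat.card {P : RSK.PS S.toRight // CR.dgF ι P.pl ≠ ⊥ ∧ IsPGroup p (CR.dgF ι P.pl)} =
      Nat.card {v : RSK.Pl F // v ∈ S ∧ Dg ι v ≠ ⊥ ∧ IsPGroup p (Dg ι v)} := by
  refine Nat.card_congr (Equiv.ofBijective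
    (fun P => ⟨P.1.pl, (inS_iff S harch _).1 (CR.pc5_inS P.1), by rw [dg_eq]; exact P.2.1, by
      rw [dg_eq]; exact P.2.2⟩) ⟨?_, ?_⟩)
  · rintro ⟨P, hP⟩ ⟨Q, hQ⟩ h
    have h1 : P.pl = Q.pl := congrArg Subtype.val h
    refine Subtype.ext ?_
    show P = Q
    rcases P with P | P <;> rcases Q with Q | Q
    · exact congrArg Sum.inl (Sum.inl.inj h1)
    · exact absurd h1 (by rintro ⟨⟩)
    · exact absurd h1 (by rintro ⟨⟩)
    · exact congrArg Sum.inr (Subtype.ext (Sum.inr.inj h1))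
  · rintro ⟨v, h1, h2, h3⟩
    obtain ⟨P, rfl⟩ := CR.pc5_of ((inS_iff S harch v).2 h1)
    rw [dg_eq] at h2 h3
    exact ⟨⟨P, h2, h3⟩, rfl⟩

/-- Rubin's conjecture for large `S` -/
theorem large (ι : G ≃* (H ≃ₐ[F] H)) (h : HM.HolAll ι) {S : Finset (RSK.Pl F)}
    {T : Finset (HeightOneSpectrum (𝓞 F))} {r : ℕ} {w : Fin r → RSK.Pl H}
    {fr : HeightOneSpectrum (𝓞 F) → G} (hD : Data ι S T w fr)
    (hS : ∀ p e f : ℕ, p.Prime → p ∣ Nat.card G → (Nat.card G).factorization p = e →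
      (Monoid.exponent G).factorization p = f → p ^ (f - 1) * ((e - f) * (p - 1) + 1) <
        Nat.card {v : RSK.Pl F // v ∈ S ∧ Dg ι v ≠ ⊥ ∧ IsPGroup p (Dg ι v)}) :
    RubinOn ⊤ ι S T w fr := by
  have hD' := data_of hD
  refine rubin_of (KR.rubin_of_on (HM.fin ι S.toRight T w fr hD' h)
    (one_adm ι S.toRight T w fr hD' fun p hp hpG => ?_))
  rw [card_pl ι S hD.arch]
  exact hS p _ _ hp hpG rfl rfl

/-- all sets `S` which contain `S₁` are large -/
theorem exists_large (ι : G ≃* (H ≃ₐ[F] H)) : ∃ S₁ : Finset (RSK.Pl F), ∀ S, S₁ ⊆ S →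
    ∀ p e f : ℕ, p.Prime → p ∣ Nat.card G → (Nat.card G).factorization p = e →
      (Monoid.exponent G).factorization p = f → p ^ (f - 1) * ((e - f) * (p - 1) + 1) <
        Nat.card {v : RSK.Pl F // v ∈ S ∧ Dg ι v ≠ ⊥ ∧ IsPGroup p (Dg ι v)} := by
  classical
  have h1 : ∀ p : ℕ, ∃ B : Finset (HeightOneSpectrum (𝓞 F)), p.Prime → p ∣ Nat.card G →
      CR.mQ p G < B.card ∧
        ∀ v ∈ B, CR.dgF ι (Sum.inr v) ≠ ⊥ ∧ IsPGroup p (CR.dgF ι (Sum.inr v)) := by
    intro p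
    by_cases hp : p.Prime ∧ p ∣ Nat.card G
    · obtain ⟨B, hB⟩ := exists_pls ι hp.1 hp.2 (CR.mQ p G)
      exact ⟨B, fun _ _ => hB⟩
    · exact ⟨∅, fun h2 h3 => absurd ⟨h2, h3⟩ hp⟩
  choose B hB using h1
  refine ⟨(Nat.card G).primeFactors.biUnion fun p => (B p).map ⟨Sum.inr, Sum.inr_injective⟩,
    fun S hS p e f hp hpG he hf => ?_⟩
  obtain ⟨h2, h3⟩ := hB p hp hpG
  have h4 : CR.mQ p G = p ^ (f - 1) * ((e - f) * (p - 1) + 1) := by
    unfold CR.mQ
    rw [he, hf]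
  rw [← h4]
  refine lt_of_lt_of_le h2 ?_
  have h5 : ∀ v : B p, (Sum.inr v.1 : RSK.Pl F) ∈ S ∧ Dg ι (Sum.inr v.1) ≠ ⊥ ∧
      IsPGroup p (Dg ι (Sum.inr v.1)) := by
    intro v
    rw [dg_eq]
    refine ⟨hS (Finset.mem_biUnion.2 ⟨p, Nat.mem_primeFactors.2 ⟨hp, hpG, Nat.card_pos.ne'⟩,
      Finset.mem_map.2 ⟨v.1, v.2, rfl⟩⟩), h3 v.1 v.2⟩
  have h6 : Finite {v : RSK.Pl F // v ∈ S ∧ Dg ι v ≠ ⊥ ∧ IsPGroup p (Dg ι v)} :=
    Set.Finite.subset S.finite_toSet (fun v hv => hv.1)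
  have h7 := Nat.card_le_card_of_injective
    (fun v : B p => (⟨Sum.inr v.1, h5 v⟩ :
      {v : RSK.Pl F // v ∈ S ∧ Dg ι v ≠ ⊥ ∧ IsPGroup p (Dg ι v)})) (by
      intro v v' hvv
      exact Subtype.ext (Sum.inr.inj (congrArg Subtype.val hvv)))
  rwa [Nat.card_eq_fintype_card, Fintype.card_coe] at h7

end

section Fin

variable {F₀ F H L : Type} [Field F₀] [NumberField F₀] [Field F] [NumberField F] [Field H]
  [NumberField H] [Field L] [NumberField L] [Algebra F₀ F] [Algebra F₀ H] [Algebra F₀ L]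
  [Algebra F H] [Algebra F L] [Algebra H L] [IsScalarTower F₀ F H] [IsScalarTower F₀ F L]
  [IsScalarTower F H L] [IsGalois F H] [IsGalois F₀ L] {G : Type} [CommGroup G] [Fintype G]
  (ι : MulEquiv G (AlgEquiv F H H))

theorem holAll (hext : KumN F₀ F H ∨ HolT F₀ F H ∨ SymP F₀ H ∨
    ∀ K : IntermediateField F H, IsCyclic (AlgEquiv F K K) → HolM F K) : HM.HolAll ι := by
  rcases hext with h | h | h | h
  · exact HM.holAll_of ι (Or.inr (Or.inl (kumN_of h)))
  · exact HM.holAll_of ι (Or.inl (holT_of h))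
  · exact Or.inr (symP_of h)
  · exact Or.inl fun N hN => holM_all ι h N hN

end Fin

end Pool.Agent.RB
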